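import Pool.Agent.R877.RN.Defs

/-! Project RN: exact statements of the pieces, Lie algebra level and the implication (ii) => (i). -/

namespace R877.RN
open Matrix Filter Topology

/-! ### Lie algebra level -/

/-- RIC: the Ricci tensor in an orthonormal basis -/
def P_RIC : Prop := ∀ (g : Type) [LieRing g] [LieAlgebra ℝ g] (ι : Type) [Fintype ι] [DecidableEq ι]
  (b : Module.Basis ι ℝ g) (B : g →ₗ[ℝ] g →ₗ[ℝ] ℝ) (D : g →ₗ[ℝ] g →ₗ[ℝ] g),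
  IsInner B → IsLC B D → (∀ i j, B (b i) (b j) = if i = j then 1 else 0) →
  ∀ x : g, ric D x x = RF (sc b) (fun i => b.repr x i)

/-- LC: existence of the metric and of its connection -/
def P_LC : Prop := ∀ (g : Type) [LieRing g] [LieAlgebra ℝ g] (ι : Type) [Fintype ι] [DecidableEq ι]
  (b : Module.Basis ι ℝ g), ∃ (B : g →ₗ[ℝ] g →ₗ[ℝ] ℝ) (D : g →ₗ[ℝ] g →ₗ[ℝ] g),
  IsInner B ∧ IsLC B D ∧ (∀ i j, B (b i) (b j) = if i = j then 1 else 0)

/-- DER: the derived algebra lies in the nilradical -/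
def P_DER : Prop := ∀ (g : Type) [LieRing g] [LieAlgebra ℝ g] [FiniteDimensional ℝ g]
  [LieAlgebra.IsSolvable g] (n : LieIdeal ℝ g), IsNilrad n → ∀ x y : g, ⁅x, y⁆ ∈ n

/-- HCHAIN: a nilpotent complement (Cartan subalgebra) with a chain basis -/
def P_HCHAIN : Prop := ∀ (g : Type) [LieRing g] [LieAlgebra ℝ g] [FiniteDimensional ℝ g]
  (n : LieIdeal ℝ g), (∀ x y : g, ⁅x, y⁆ ∈ n) →
  ∃ (h : LieSubalgebra ℝ g) (m : ℕ) (y : Fin m → g), LieRing.IsNilpotent h ∧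
    Submodule.span ℝ (Set.range y) = h.toSubmodule ∧ h.toSubmodule ⊔ n.toSubmodule = ⊤ ∧
    ∀ i j, i < j → ⁅y j, y i⁆ ∈ Submodule.span ℝ (y '' {i' | i' < j})

/-- JC: Jordan decompositions of `ad z_i` on the ideal `n`, for `z_i` in a nilpotent subalgebra -/
def P_JC : Prop := ∀ (g : Type) [LieRing g] [LieAlgebra ℝ g] [FiniteDimensional ℝ g]
  (n : LieIdeal ℝ g) (h : LieSubalgebra ℝ g), LieRing.IsNilpotent h →
  ∀ (m : ℕ) (z : Fin m → g), (∀ i, z i ∈ h) →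
  ∃ S : Fin m → Module.End ℝ n,
    (∀ i, (S i).IsSemisimple) ∧ (∀ i, IsNilpotent (LieModule.toEnd ℝ g n (z i) - S i)) ∧
    (∀ i j, Commute (S i) (S j)) ∧ (∀ i j, Commute (S i) (LieModule.toEnd ℝ g n (z j))) ∧
    ∀ i, ∀ u v : n, S i ⁅u, v⁆ = ⁅S i u, v⁆ + ⁅u, S i v⁆

/-- NORM: commuting semisimple operators are simultaneously normal in some basis -/
def P_NORM : Prop := ∀ (V : Type) [AddCommGroup V] [Module ℝ V] [FiniteDimensional ℝ V] (N m : ℕ)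
  (S : Fin (m+1) → Module.End ℝ V), Module.finrank ℝ V = N → (∀ i, (S i).IsSemisimple) →
  (∀ i j, Commute (S i) (S j)) →
  ∃ (β : Module.Basis (Fin N) ℝ V) (d : Fin N → ℝ),
    (∀ i, LinearMap.toMatrix β β (S i) * (LinearMap.toMatrix β β (S i))ᵀ
      = (LinearMap.toMatrix β β (S i))ᵀ * LinearMap.toMatrix β β (S i)) ∧
    sy (LinearMap.toMatrix β β (S (Fin.last m))) = diagonal d

/-- FUG: Fuglede -/
def P_FUG : Prop := ∀ (n : ℕ) (M X : Mat n), M * Mᵀ = Mᵀ * M → X * M = M * X → X * Mᵀ = Mᵀ * X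

/-- DERT: the transpose of a normal derivation is a derivation -/
def P_DERT : Prop := ∀ (n : ℕ) (M : Mat n) (μ : Br n), M * Mᵀ = Mᵀ * M → IsDer M μ → IsDer Mᵀ μ

/-- TRI0: a nilpotent Lie algebra with a nilpotent derivation is strictly triangular -/
def P_TRI0 : Prop := ∀ (L : Type) [LieRing L] [LieAlgebra ℝ L] (N : ℕ)
  (β : Module.Basis (Fin N) ℝ L) (D : Module.End ℝ L), LieRing.IsNilpotent L → IsNilpotent D →
  (∀ u v : L, D ⁅u, v⁆ = ⁅D u, v⁆ + ⁅u, D v⁆) → Tri (sc β) (LinearMap.toMatrix β β D)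

/-- G1: the metric of (i) in matrix form -/
def P_G1 : Prop := ∀ (g : Type) [LieRing g] [LieAlgebra ℝ g] [FiniteDimensional ℝ g]
  (n : LieIdeal ℝ g), LieRing.IsNilpotent n → (∀ x y : g, ⁅x, y⁆ ∈ n) → NegRic g →
  ∃ (k : ℕ) (e : Fin k → g), Submodule.span ℝ (Set.range e) ⊔ n.toSubmodule = ⊤ ∧
    ∀ (N : ℕ) (β : Module.Basis (Fin N) ℝ n), ∃ (c F : Mat N) (δ : ℝ), 0 < δ ∧ IsUnit c.det ∧
      (∀ x, 0 ≤ qf F x) ∧
      ∀ x, qf (Mm (act c (muOf β)) + (1/2 : ℝ) • ∑ i, com (conj c (adOf β (e i))) + F) x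
        ≤ qf (conj c (adOf β (∑ i, (LinearMap.trace ℝ g (LieAlgebra.ad ℝ g (e i))) • e i))) x
          - δ * (x ⬝ᵥ x)

/-- G2: from the matrix form to the metric on `ℝY ⊕ n` -/
def P_G2 : Prop := ∀ (g : Type) [LieRing g] [LieAlgebra ℝ g] [FiniteDimensional ℝ g]
  (n : LieIdeal ℝ g) (Y : g) (K : LieSubalgebra ℝ g) (N : ℕ) (β : Module.Basis (Fin N) ℝ n)
  (c : Mat N) (s : ℝ), LieRing.IsNilpotent n → Y ∉ n →
  K.toSubmodule = Submodule.span ℝ {Y} ⊔ n.toSubmodule → IsUnit c.det → 0 < s →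
  R1neg (act c (muOf β)) (conj c (adOf β Y)) s → NegRic K

/-- TRN: the trace of `ad x` on `g` is its trace on an ideal containing the derived algebra -/
def P_TRN : Prop := ∀ (g : Type) [LieRing g] [LieAlgebra ℝ g] [FiniteDimensional ℝ g]
  (n : LieIdeal ℝ g) (N : ℕ) (β : Module.Basis (Fin N) ℝ n), (∀ x y : g, ⁅x, y⁆ ∈ n) →
  ∀ x : g, LinearMap.trace ℝ g (LieAlgebra.ad ℝ g x) = (adOf β x).trace

/-- (i) => (ii) -/
def P_FWD : Prop := ∀ (g : Type) [LieRing g] [LieAlgebra ℝ g] [FiniteDimensional ℝ g]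
  [LieAlgebra.IsSolvable g] [Nontrivial g] (n : LieIdeal ℝ g), IsNilrad n → NegRic g → HasRankOne n

/-- (ii) => (i) -/
def P_BWD : Prop := ∀ (g : Type) [LieRing g] [LieAlgebra ℝ g] [FiniteDimensional ℝ g]
  [LieAlgebra.IsSolvable g] (n : LieIdeal ℝ g), IsNilrad n → HasRankOne n → NegRic g

/-! ### (ii) => (i) -/

/-- the form `2 Ric(x,u)` up to the factor `t` in the one-step extension -/
noncomputable def ell {N : ℕ} (μ : Br N) (D : Mat N) (x : Fin N → ℝ) : ℝ :=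
  -2 * (sy D * sy (adm μ x)).trace + ∑ k, ∑ a, x k * D k a * ∑ i, μ a i i

/-- structure constants of `ℝu ⊕ h`, `[u,x] = t D x` -/
def extc {N : ℕ} (μ : Br N) (D : Mat N) (t : ℝ) : Option (Fin N) → Option (Fin N) → Option (Fin N) → ℝ
  | some i, some j, some k => μ i j k
  | none, some i, some k => t * D k i
  | some i, none, some k => -(t * D k i)
  | _, _, _ => 0

/-- ZEXT: Ricci form of the one-step extension -/
def P_EXT : Prop := ∀ (N : ℕ) (μ : Br N) (D : Mat N) (t : ℝ) (X : Option (Fin N) → ℝ), Asym μ →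
  RF (extc μ D t) X = RF μ (fun i => X (some i))
    + t^2 * (qf ((1/2 : ℝ) • com D - D.trace • sy D) (fun i => X (some i)))
    + X none * t * ell μ D (fun i => X (some i))
    - (X none)^2 * t^2 * ∑ i, ∑ j, (sy D i j)^2

/-- ZSOL: the cross term can be killed -/
def P_SOL : Prop := ∀ (N : ℕ) (μ : Br N) (D : Mat N), Asym μ → (∀ x, x ≠ 0 → RF μ x < 0) →
  ∃ w : Fin N → ℝ, ∀ x, ell μ (D + adm μ w) x = 0

/-- ZSKEW: a metric arbitrarily close to the given one for which no `D + ad w` is skew -/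
def P_SKEW : Prop := ∀ (N : ℕ) (μ : Br N) (D : Mat N) (k : Fin N → ℝ), Asym μ →
  (∀ x, x ≠ 0 → RF μ x < 0) → Dᵀ = -D → D ≠ 0 → k ≠ 0 → D *ᵥ k = 0 →
  ∃ σ : Mat N, σᵀ = σ ∧ ∀ᶠ ε : ℝ in 𝓝[>] 0, ∀ w : Fin N → ℝ,
    sy (conj (1 + ε • σ) (D + adm μ w)) ≠ 0

/-- ZOPEN: negativity is an open condition -/
def P_OPENN : Prop := ∀ (N : ℕ) (μ : Br N) (σ : Mat N), (∀ x, x ≠ 0 → RF μ x < 0) →
  ∀ᶠ ε : ℝ in 𝓝[>] 0, IsUnit (1 + ε • σ).det ∧ ∀ x, x ≠ 0 → RF (act (1 + ε • σ) μ) x < 0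

/-- ZSTEP: one step, matrix form. `D` is a derivation, with a kernel in the skew case,
and no `D + ad w` vanishes. -/
def P_ZSTEP : Prop := ∀ (N : ℕ) (μ : Br N) (D : Mat N), Asym μ →
  (∀ x, x ≠ 0 → RF μ x < 0) → (∀ w, D + adm μ w ≠ 0) →
  (∀ w, ∃ k : Fin N → ℝ, k ≠ 0 ∧ (D + adm μ w)ᵀ *ᵥ k = 0) →
  ∃ (c : Mat N) (w : Fin N → ℝ) (t : ℝ), IsUnit c.det ∧ t ≠ 0 ∧
    ∀ X, X ≠ 0 → RF (extc (act c μ) (conj c (D + adm μ w)) t) X < 0

/-- ZLIE: one step, Lie algebra form -/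
def P_ZLIE : Prop := ∀ (g : Type) [LieRing g] [LieAlgebra ℝ g] [FiniteDimensional ℝ g]
  (h K : LieSubalgebra ℝ g) (n : LieIdeal ℝ g) (Z : g), (∀ x y : g, ⁅x, y⁆ ∈ n) →
  n.toSubmodule < h.toSubmodule → Z ∉ h → K.toSubmodule = Submodule.span ℝ {Z} ⊔ h.toSubmodule →
  (∀ w ∈ h, ∃ u ∈ n, ⁅Z + w, u⁆ ≠ 0) → NegRic h → NegRic K

end R877.RN
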