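import Pool.Agent.R877.RN.Stm

/-! Pieces ACTMUL, DERACT, ASYMACT, JACT of project RN (helper381): algebra of structure
constants through the associated bilinear maps. -/

namespace R877.RN
open Matrix Filter Topology

namespace BASA

variable {n : ℕ}

/-- the bilinear map with given structure constants -/
noncomputable def Fl (μ : Br n) : (Fin n → ℝ) →ₗ[ℝ] (Fin n → ℝ) →ₗ[ℝ] (Fin n → ℝ) :=
  LinearMap.mk₂ ℝ (fun x y k => ∑ i, ∑ j, x i * y j * μ i j k)
    (by
      intro x x' y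
      funext k
      simp only [Pi.add_apply, add_mul, Finset.sum_add_distrib])
    (by
      intro a x y
      funext k
      simp only [Pi.smul_apply, smul_eq_mul, Finset.mul_sum]
      exact Finset.sum_congr rfl fun i _ => Finset.sum_congr rfl fun j _ => by ring)
    (by
      intro x y y'
      funext k
      simp only [Pi.add_apply, mul_add, add_mul, Finset.sum_add_distrib])
    (by
      intro a x y
      funext k
      simp only [Pi.smul_apply, smul_eq_mul, Finset.mul_sum]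
      exact Finset.sum_congr rfl fun i _ => Finset.sum_congr rfl fun j _ => by ring)

lemma Fl_apply (μ : Br n) (x y : Fin n → ℝ) (k : Fin n) :
    Fl μ x y k = ∑ i, ∑ j, x i * y j * μ i j k := rfl

/-- basis vector -/
abbrev e (i : Fin n) : Fin n → ℝ := Pi.single i 1

lemma Fl_left (μ : Br n) (i : Fin n) (y : Fin n → ℝ) (k : Fin n) :
    Fl μ (e i) y k = ∑ j, y j * μ i j k := by
  rw [Fl_apply, Finset.sum_eq_single i]
  · simp
  · intro b _ hb
    simp [hb]
  · intro h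
    exact absurd (Finset.mem_univ _) h

lemma Fl_right (μ : Br n) (x : Fin n → ℝ) (j : Fin n) (k : Fin n) :
    Fl μ x (e j) k = ∑ i, x i * μ i j k := by
  rw [Fl_apply]
  refine Finset.sum_congr rfl fun i _ => ?_
  rw [Finset.sum_eq_single j]
  · simp
  · intro b _ hb
    simp [hb]
  · intro h
    exact absurd (Finset.mem_univ _) h

lemma Fl_basis (μ : Br n) (i j : Fin n) : Fl μ (e i) (e j) = μ i j := by
  funext k
  rw [Fl_left, Finset.sum_eq_single j]
  · simp
  · intro b _ hb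
    simp [hb]
  · intro h
    exact absurd (Finset.mem_univ _) h

lemma Fl_inj {μ ν : Br n} (h : ∀ x y, Fl μ x y = Fl ν x y) : μ = ν := by
  funext i j
  rw [← Fl_basis μ, ← Fl_basis ν, h]

lemma lin_ext {f g : (Fin n → ℝ) →ₗ[ℝ] (Fin n → ℝ)} (h : ∀ i, f (e i) = g (e i)) : f = g := by
  refine (Pi.basisFun ℝ (Fin n)).ext fun i => ?_
  rw [Pi.basisFun_apply]
  exact h i

lemma mulVec_e (c : Mat n) (i : Fin n) : c *ᵥ e i = fun p => c p i := by
  funext p
  change ∑ x, c p x * (Pi.single i 1 : Fin n → ℝ) x = c p i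
  rw [Finset.sum_eq_single i]
  · simp
  · intro b _ hb
    simp [hb]
  · intro h
    exact absurd (Finset.mem_univ _) h

lemma act_basis (c : Mat n) (μ : Br n) (i j : Fin n) :
    act c μ i j = c *ᵥ Fl μ (c⁻¹ *ᵥ e i) (c⁻¹ *ᵥ e j) := by
  funext k
  rw [mulVec_e, mulVec_e]
  change ∑ p, ∑ q, ∑ r, c k r * μ p q r * c⁻¹ p i * c⁻¹ q j =
    ∑ r, c k r * Fl μ (fun p => c⁻¹ p i) (fun q => c⁻¹ q j) r
  have h1 : ∀ r, c k r * Fl μ (fun p => c⁻¹ p i) (fun q => c⁻¹ q j) r =
      ∑ p, ∑ q, c k r * μ p q r * c⁻¹ p i * c⁻¹ q j := by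
    intro r
    rw [Fl_apply, Finset.mul_sum]
    refine Finset.sum_congr rfl fun p _ => ?_
    rw [Finset.mul_sum]
    exact Finset.sum_congr rfl fun q _ => by ring
  rw [Finset.sum_congr rfl fun r _ => h1 r]
  conv_rhs => rw [Finset.sum_comm]
  refine Finset.sum_congr rfl fun p _ => ?_
  conv_rhs => rw [Finset.sum_comm]

lemma Fl_act (c : Mat n) (μ : Br n) (x y : Fin n → ℝ) :
    Fl (act c μ) x y = c *ᵥ Fl μ (c⁻¹ *ᵥ x) (c⁻¹ *ᵥ y) := by
  -- linear in `y` for fixed `x`, then linear in `x`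
  have h1 : ∀ i, Fl (act c μ) (e i) =
      (Matrix.mulVecLin c) ∘ₗ (Fl μ (c⁻¹ *ᵥ e i)) ∘ₗ (Matrix.mulVecLin c⁻¹) := by
    intro i
    refine lin_ext fun j => ?_
    rw [Fl_basis, act_basis]
    rfl
  have h2 : (Fl (act c μ)).flip y =
      (Matrix.mulVecLin c) ∘ₗ ((Fl μ).flip (c⁻¹ *ᵥ y)) ∘ₗ (Matrix.mulVecLin c⁻¹) := by
    refine lin_ext fun i => ?_
    rw [LinearMap.flip_apply, h1 i]
    rfl
  have h3 := LinearMap.congr_fun h2 x
  rw [LinearMap.flip_apply] at h3
  exact h3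

lemma inv_mulVec {c : Mat n} (hc : IsUnit c.det) (x : Fin n → ℝ) : c⁻¹ *ᵥ (c *ᵥ x) = x := by
  rw [Matrix.mulVec_mulVec, Matrix.nonsing_inv_mul _ hc, Matrix.one_mulVec]

lemma der_iff {A : Mat n} {μ : Br n} : IsDer A μ ↔
    ∀ x y, A *ᵥ Fl μ x y = Fl μ (A *ᵥ x) y + Fl μ x (A *ᵥ y) := by
  constructor
  · intro h
    have h0 : ∀ i j, A *ᵥ Fl μ (e i) (e j) = Fl μ (A *ᵥ e i) (e j) + Fl μ (e i) (A *ᵥ e j) := by
      intro i j
      funext k
      rw [Pi.add_apply, Fl_basis, Fl_right, Fl_left, mulVec_e, mulVec_e]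
      exact h i j k
    have h1 : ∀ i, (Matrix.mulVecLin A) ∘ₗ (Fl μ (e i)) =
        Fl μ (A *ᵥ e i) + (Fl μ (e i)) ∘ₗ (Matrix.mulVecLin A) := by
      intro i
      refine lin_ext fun j => ?_
      exact h0 i j
    intro x y
    have h2 : (Matrix.mulVecLin A) ∘ₗ ((Fl μ).flip y) =
        ((Fl μ).flip y) ∘ₗ (Matrix.mulVecLin A) + (Fl μ).flip (A *ᵥ y) := by
      refine lin_ext fun i => ?_
      exact LinearMap.congr_fun (h1 i) y
    exact LinearMap.congr_fun h2 x
  · intro h i j k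
    have h1 := congrFun (h (e i) (e j)) k
    rw [Pi.add_apply, Fl_basis, Fl_right, Fl_left, mulVec_e, mulVec_e] at h1
    exact h1

/-- the Jacobi expression -/
noncomputable def T (μ : Br n) (x y z : Fin n → ℝ) : Fin n → ℝ :=
  Fl μ (Fl μ x y) z + Fl μ (Fl μ y z) x + Fl μ (Fl μ z x) y

lemma T_cyc (μ : Br n) (x y z : Fin n → ℝ) : T μ x y z = T μ y z x := by
  unfold T
  abel

lemma T_basis (μ : Br n) (i j k l : Fin n) : T μ (e i) (e j) (e k) l =
    ∑ r, (μ i j r * μ r k l + μ j k r * μ r i l + μ k i r * μ r j l) := by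
  unfold T
  rw [Pi.add_apply, Pi.add_apply, Fl_right, Fl_right, Fl_right, Fl_basis, Fl_basis, Fl_basis,
    Finset.sum_add_distrib, Finset.sum_add_distrib]

lemma T_step {μ : Br n} {y z : Fin n → ℝ} (h : ∀ i, T μ (e i) y z = 0) (x : Fin n → ℝ) :
    T μ x y z = 0 := by
  have h1 : ((Fl μ).flip z) ∘ₗ ((Fl μ).flip y) + Fl μ (Fl μ y z) +
      ((Fl μ).flip y) ∘ₗ (Fl μ z) = 0 := by
    refine lin_ext fun i => ?_
    exact h i
  exact LinearMap.congr_fun h1 x

lemma jac_iff {μ : Br n} : Jac μ ↔ ∀ x y z, T μ x y z = 0 := by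
  constructor
  · intro h x y z
    have h0 : ∀ i j k, T μ (e i) (e j) (e k) = 0 := by
      intro i j k
      funext l
      rw [T_basis]
      exact h i j k l
    have h1 : ∀ x j k, T μ x (e j) (e k) = 0 := fun x j k => T_step (fun i => h0 i j k) x
    have h2 : ∀ x y k, T μ x (e k) y = 0 := fun x y k => T_step (fun i => by
      rw [← T_cyc]
      exact h1 y i k) x
    have h3 : ∀ x y z, T μ x y z = 0 := fun x y z => T_step (fun i => by
      rw [← T_cyc]
      exact h2 z y i) x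
    exact h3 x y z
  · intro h i j k l
    rw [← T_basis, h]
    rfl

end BASA

open BASA

theorem p_ACTMUL : P_ACTMUL := by
  intro n c d μ _ _
  refine Fl_inj fun x y => ?_
  rw [Fl_act, Fl_act, Fl_act, Matrix.mul_inv_rev, ← Matrix.mulVec_mulVec, ← Matrix.mulVec_mulVec,
    ← Matrix.mulVec_mulVec]

theorem p_DERACT : P_DERACT := by
  intro n c A μ hc h
  rw [der_iff] at h ⊢
  intro x y
  have h1 : ∀ v, c⁻¹ *ᵥ (conj c A *ᵥ v) = A *ᵥ (c⁻¹ *ᵥ v) := by
    intro v
    unfold conj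
    rw [← Matrix.mulVec_mulVec, ← Matrix.mulVec_mulVec, inv_mulVec hc]
  have h2 : ∀ v, conj c A *ᵥ (c *ᵥ v) = c *ᵥ (A *ᵥ v) := by
    intro v
    unfold conj
    rw [← Matrix.mulVec_mulVec, ← Matrix.mulVec_mulVec, inv_mulVec hc]
  rw [Fl_act, Fl_act, Fl_act, h2, h1, h1, h, Matrix.mulVec_add]

theorem p_ASYMACT : P_ASYMACT := by
  intro n c μ h i j k
  unfold act
  rw [Finset.sum_comm, ← Finset.sum_neg_distrib]
  refine Finset.sum_congr rfl fun p _ => ?_
  rw [← Finset.sum_neg_distrib]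
  refine Finset.sum_congr rfl fun q _ => ?_
  rw [← Finset.sum_neg_distrib]
  refine Finset.sum_congr rfl fun r _ => ?_
  rw [h q p r]
  ring

theorem p_JACT : P_JACT := by
  intro n c μ hc h
  rw [jac_iff] at h ⊢
  intro x y z
  have h1 : T (act c μ) x y z = c *ᵥ T μ (c⁻¹ *ᵥ x) (c⁻¹ *ᵥ y) (c⁻¹ *ᵥ z) := by
    unfold T
    simp only [Fl_act, inv_mulVec hc, Matrix.mulVec_add]
  rw [h1, h, Matrix.mulVec_zero]

end R877.RN
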