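import Mathlib

/-!
Project RN (MP_6ec3b3_gt): negative Ricci curvature on solvable Lie algebras, reduction of the rank.
-/

namespace R877.RN
open Matrix Filter Topology

/-! ## Lie algebra level -/

section lie
variable {g : Type} [LieRing g] [LieAlgebra ℝ g]

/-- `B` is an inner product (symmetric positive definite bilinear form) -/
structure IsInner {V : Type} [AddCommGroup V] [Module ℝ V] (B : V →ₗ[ℝ] V →ₗ[ℝ] ℝ) : Prop where
  symm : ∀ x y, B x y = B y x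
  pos : ∀ x, x ≠ 0 → 0 < B x x

/-- `D` is the Levi-Civita connection of the left invariant metric `B`
(on left invariant fields): torsion free and metric -/
structure IsLC (B : g →ₗ[ℝ] g →ₗ[ℝ] ℝ) (D : g →ₗ[ℝ] g →ₗ[ℝ] g) : Prop where
  torsion : ∀ x y, D x y - D y x = ⁅x, y⁆
  metric : ∀ x y z, B (D x y) z + B y (D x z) = 0

/-- `z ↦ R(z,x)y = D_z D_x y - D_x D_z y - D_[z,x] y` -/
noncomputable def curvEnd (D : g →ₗ[ℝ] g →ₗ[ℝ] g) (x y : g) : g →ₗ[ℝ] g where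
  toFun z := D z (D x y) - D x (D z y) - D ⁅z, x⁆ y
  map_add' a b := by simp only [map_add, LinearMap.add_apply, add_lie]; abel
  map_smul' r a := by simp only [map_smul, LinearMap.smul_apply, smul_lie, RingHom.id_apply, smul_sub]

/-- Ricci tensor: the trace of `z ↦ R(z,x)y` -/
noncomputable def ric (D : g →ₗ[ℝ] g →ₗ[ℝ] g) (x y : g) : ℝ := LinearMap.trace ℝ g (curvEnd D x y)

/-- `g` carries an inner product with `Ric < 0` -/
def NegRic (g : Type) [LieRing g] [LieAlgebra ℝ g] : Prop :=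
  ∃ (B : g →ₗ[ℝ] g →ₗ[ℝ] ℝ) (D : g →ₗ[ℝ] g →ₗ[ℝ] g),
    IsInner B ∧ IsLC B D ∧ ∀ x : g, x ≠ 0 → ric D x x < 0

/-- `n` is the nilradical: the largest nilpotent ideal -/
def IsNilrad (n : LieIdeal ℝ g) : Prop :=
  LieRing.IsNilpotent n ∧ ∀ J : LieIdeal ℝ g, LieRing.IsNilpotent J → J ≤ n

/-- (ii): some `Y ∉ n` such that the subalgebra `ℝY ⊕ n` has `Ric < 0` -/
def HasRankOne (n : LieIdeal ℝ g) : Prop :=
  ∃ Y : g, Y ∉ n ∧ ∃ K : LieSubalgebra ℝ g,
    K.toSubmodule = Submodule.span ℝ {Y} ⊔ n.toSubmodule ∧ NegRic K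

end lie

/-- structure constants in a basis: `sc b i j k` = coefficient of `b k` in `[b i, b j]` -/
noncomputable def sc {g : Type} [LieRing g] [LieAlgebra ℝ g] {ι : Type} (b : Module.Basis ι ℝ g)
    (i j k : ι) : ℝ := b.repr ⁅b i, b j⁆ k

/-- The Ricci quadratic form of an orthonormal basis with structure constants `c`:
`-1/2 Σ|[x,e_i]|² - 1/2 tr (ad x)² + 1/4 Σ <[e_i,e_j],x>² - <[H,x],x>` -/
noncomputable def RF {ι : Type} [Fintype ι] (c : ι → ι → ι → ℝ) (x : ι → ℝ) : ℝ :=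
  -(1/2) * ∑ i, ∑ k, (∑ p, x p * c p i k)^2
  - (1/2) * ∑ i, ∑ k, (∑ p, x p * c p i k) * (∑ p, x p * c p k i)
  + (1/4) * ∑ i, ∑ j, (∑ k, x k * c i j k)^2
  - ∑ a, (∑ i, c a i i) * ∑ p, ∑ q, x p * c a p q * x q

/-! ## Matrix level -/

abbrev Mat (n : ℕ) := Matrix (Fin n) (Fin n) ℝ
/-- brackets on `ℝ^n`: `μ i j k` = coefficient of `e_k` in `[e_i,e_j]` -/
abbrev Br (n : ℕ) := Fin n → Fin n → Fin n → ℝ

def Asym {n : ℕ} (μ : Br n) : Prop := ∀ i j k, μ i j k = - μ j i k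

/-- Jacobi identity -/
def Jac {n : ℕ} (μ : Br n) : Prop :=
  ∀ i j k l, ∑ r, (μ i j r * μ r k l + μ j k r * μ r i l + μ k i r * μ r j l) = 0

/-- change of frame `(c•μ)(x,y) = c μ(c⁻¹x, c⁻¹y)` -/
noncomputable def act {n : ℕ} (c : Mat n) (μ : Br n) : Br n := fun i j k =>
  ∑ p, ∑ q, ∑ r, c k r * μ p q r * c⁻¹ p i * c⁻¹ q j

noncomputable def conj {n : ℕ} (c A : Mat n) : Mat n := c * A * c⁻¹

/-- `A` (with `A e_i = Σ_k A k i e_k`) is a derivation of `μ` -/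
def IsDer {n : ℕ} (A : Mat n) (μ : Br n) : Prop :=
  ∀ i j k, ∑ r, A k r * μ i j r = ∑ p, A p i * μ p j k + ∑ q, A q j * μ i q k

/-- matrix of `ad x` -/
def adm {n : ℕ} (μ : Br n) (x : Fin n → ℝ) : Mat n := fun k i => ∑ p, x p * μ p i k

/-- the Ricci operator of a nilpotent bracket -/
noncomputable def Mm {n : ℕ} (μ : Br n) : Mat n := fun i j =>
  -(1/2) * ∑ p, ∑ k, μ i p k * μ j p k + (1/4) * ∑ p, ∑ q, μ p q i * μ p q j

def com {n : ℕ} (A : Mat n) : Mat n := A * Aᵀ - Aᵀ * A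
noncomputable def sy {n : ℕ} (A : Mat n) : Mat n := (1/2 : ℝ) • (A + Aᵀ)
/-- quadratic form -/
def qf {n : ℕ} (A : Mat n) (x : Fin n → ℝ) : ℝ := x ⬝ᵥ (A *ᵥ x)

def IsO {n : ℕ} (l : Mat n) : Prop := l * lᵀ = 1

/-- `R` preserves the decreasing filtration defined by the weights `a` -/
def Par {n : ℕ} (a : Fin n → ℝ) (R : Mat n) : Prop := ∀ i j, R i j ≠ 0 → a j ≤ a i

/-- compatibility of the weighted frame `(l,a)` with a bracket / an operator / commutation -/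
def CB {n : ℕ} (l : Mat n) (a : Fin n → ℝ) (μ : Br n) : Prop :=
  ∀ i j k, act l μ i j k ≠ 0 → a i + a j ≤ a k
def CM {n : ℕ} (l : Mat n) (a : Fin n → ℝ) (A : Mat n) : Prop := Par a (l * A * lᵀ)
def CS {n : ℕ} (l : Mat n) (a : Fin n → ℝ) (S : Mat n) : Prop :=
  ∀ k i, (l * S * lᵀ) k i ≠ 0 → a i = a k

/-- `tr (D E)` for `E = lᵀ diag(a) l` -/
def dt {n : ℕ} (D l : Mat n) (a : Fin n → ℝ) : ℝ := ∑ i, a i * (l * D * lᵀ) i i

/-- `μ` and `N` are simultaneously strictly triangular in some orthonormal frame -/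
def Tri {n : ℕ} (μ : Br n) (N : Mat n) : Prop :=
  ∃ l : Mat n, IsO l ∧ (∀ i j k, act l μ i j k ≠ 0 → i < k ∧ j < k) ∧
    ∀ k i, (l * N * lᵀ) k i ≠ 0 → i < k

/-- truncated exponential series, equal to `exp (tN)` when `N^n = 0` -/
noncomputable def ex {n : ℕ} (N : Mat n) (t : ℝ) : Mat n :=
  ∑ m ∈ Finset.range n, (t^m / (m.factorial : ℝ)) • N^m

/-- block of `c` for the value `v` of `d`, completed by the identity -/
noncomputable def blk {n : ℕ} (d : Fin n → ℝ) (v : ℝ) (c : Mat n) : Mat n := by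
  classical exact fun i j => if d i = v ∧ d j = v then c i j else if i = j then 1 else 0

/-- the logarithm of the character of the centralizer of `diagonal d` with differential `E ↦ tr(diagonal d * E)` -/
noncomputable def chi {n : ℕ} (d : Fin n → ℝ) (c : Mat n) : ℝ := by
  classical exact ∑ v ∈ Finset.univ.image d, v * Real.log |(blk d v c).det|

/-- the Kempf-Ness function -/
noncomputable def Phi {n : ℕ} (d : Fin n → ℝ) (μ : Br n) (N : Mat n) (c : Mat n) : ℝ :=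
  (1/8) * ∑ i, ∑ j, ∑ k, (act c μ i j k)^2 + (1/4) * ∑ i, ∑ j, (conj c N i j)^2
    + (1/2) * ∑ i, ∑ j, (c i j)^2 - chi d c

/-- invertible and commuting with all elements of `T` -/
def InC {n : ℕ} (T : Set (Mat n)) (c : Mat n) : Prop := IsUnit c.det ∧ ∀ S ∈ T, S * c = c * S

/-- Ricci form of `ℝY ⊕ n` in the frame: `n` with bracket `ν`, `A = ad Y|_n`, `|Y|² = s`, `Y ⊥ n` is negative -/
def R1neg {n : ℕ} (ν : Br n) (A : Mat n) (s : ℝ) : Prop :=
  ∀ (x : Fin n → ℝ) (y : ℝ), (x ≠ 0 ∨ y ≠ 0) →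
    qf (Mm ν + (1/(2*s)) • com A - (A.trace / s) • sy A) x
      - y * (∑ p, ∑ i, ∑ k, x p * ν p i k * A k i) - y^2 * (∑ i, ∑ j, (sy A i j)^2) < 0

/-! ## bridge -/
section bridge
variable {g : Type} [LieRing g] [LieAlgebra ℝ g]

/-- structure constants of the ideal `n` in the basis `β` -/
noncomputable def muOf {n : LieIdeal ℝ g} {N : ℕ} (β : Module.Basis (Fin N) ℝ n) : Br N :=
  fun i j k => β.repr ⁅β i, β j⁆ k

/-- matrix of `ad y` on the ideal `n` in the basis `β` -/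
noncomputable def adOf {n : LieIdeal ℝ g} {N : ℕ} (β : Module.Basis (Fin N) ℝ n) (y : g) : Mat N :=
  fun k i => β.repr ⁅y, β i⁆ k

end bridge

end R877.RN
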