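import Pool.Agent.R877.RN.Stm
import Pool.Agent.R877.RN.Stm2

/-! Project RN: assembly of (i) => (ii). -/

namespace R877.RN
open Matrix

section
variable {g : Type} [LieRing g] [LieAlgebra ℝ g] {n : LieIdeal ℝ g} {N : ℕ}
  (β : Module.Basis (Fin N) ℝ n)

/-- `adOf` as a linear map -/
noncomputable def adL : g →ₗ[ℝ] Mat N :=
  (LinearMap.toMatrix β β).toLinearMap ∘ₗ (LieModule.toEnd ℝ g n : g →ₗ[ℝ] Module.End ℝ n)

theorem adOf_eq_toMatrix (y : g) : adOf β y = LinearMap.toMatrix β β (LieModule.toEnd ℝ g n y) := by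
  ext k i
  rw [LinearMap.toMatrix_apply]
  rfl

theorem adL_apply (y : g) : adL β y = adOf β y := (adOf_eq_toMatrix β y).symm

theorem adOf_add (x y : g) : adOf β (x + y) = adOf β x + adOf β y := by
  rw [← adL_apply, ← adL_apply, ← adL_apply, map_add]

theorem adOf_sub (x y : g) : adOf β (x - y) = adOf β x - adOf β y := by
  rw [← adL_apply, ← adL_apply, ← adL_apply, map_sub]

theorem adOf_zero : adOf β (0 : g) = 0 := by
  rw [← adL_apply, map_zero]

theorem adOf_lie (x y : g) : adOf β ⁅x, y⁆ = adOf β x * adOf β y - adOf β y * adOf β x := by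
  have h1 : LieModule.toEnd ℝ g n ⁅x, y⁆ = LieModule.toEnd ℝ g n x * LieModule.toEnd ℝ g n y
      - LieModule.toEnd ℝ g n y * LieModule.toEnd ℝ g n x := by
    refine LinearMap.ext fun u => ?_
    show ⁅⁅x, y⁆, u⁆ = ⁅x, ⁅y, u⁆⁆ - ⁅y, ⁅x, u⁆⁆
    exact lie_lie x y u
  rw [adOf_eq_toMatrix, adOf_eq_toMatrix, adOf_eq_toMatrix, h1, map_sub,
    LinearMap.toMatrix_mul, LinearMap.toMatrix_mul]

theorem adOf_mem_span {s : Set g} {x : g} (hx : x ∈ Submodule.span ℝ s) :
    adOf β x ∈ Submodule.span ℝ (adOf β '' s) := by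
  have h1 : adL β x ∈ Submodule.map (adL β) (Submodule.span ℝ s) := Submodule.mem_map_of_mem hx
  rw [Submodule.map_span, adL_apply] at h1
  have h2 : (adL β) '' s = adOf β '' s := by
    apply Set.image_congr
    intro a _
    exact adL_apply β a
  rwa [h2] at h1

theorem adOf_n (x : n) : adOf β (x : g) = adm (muOf β) (fun i => β.repr x i) := by
  ext k i
  show β.repr ⁅(x : g), β i⁆ k = ∑ p, β.repr x p * β.repr ⁅β p, β i⁆ k
  have h1 : ⁅(x : g), β i⁆ = ⁅x, β i⁆ := rfl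
  rw [h1]
  conv_lhs => rw [← β.sum_repr x]
  have h2 : ⁅∑ p, (β.repr x) p • β p, β i⁆ = ∑ p, (β.repr x) p • ⁅β p, β i⁆ := by
    have h3 := map_sum (((LieModule.toEnd ℝ n n : n →ₗ[ℝ] Module.End ℝ n)).flip (β i))
      (fun p => (β.repr x) p • β p) Finset.univ
    simpa using h3
  rw [h2]
  simp [Finset.sum_apply]

theorem adOf_n_mem (x : g) (hx : x ∈ n) :
    adOf β x ∈ Submodule.span ℝ (Set.range (adm (muOf β))) := by
  have h := adOf_n β ⟨x, hx⟩
  have h' : adOf β x = adm (muOf β) (fun i => β.repr ⟨x, hx⟩ i) := h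
  rw [h']
  exact Submodule.subset_span ⟨_, rfl⟩

theorem isDer_toMatrix (f : Module.End ℝ n) (hf : ∀ u v : n, f ⁅u, v⁆ = ⁅f u, v⁆ + ⁅u, f v⁆) :
    IsDer (LinearMap.toMatrix β β f) (muOf β) := by
  intro i j k
  have h1 : β.repr (f ⁅β i, β j⁆) k = ∑ r, LinearMap.toMatrix β β f k r * muOf β i j r := by
    conv_lhs => rw [← β.sum_repr ⁅β i, β j⁆]
    rw [map_sum, map_sum, Finsupp.coe_finsetSum, Finset.sum_apply]
    refine Finset.sum_congr rfl fun r _ => ?_
    rw [LinearMap.toMatrix_apply, map_smul, map_smul, Finsupp.smul_apply, smul_eq_mul, mul_comm]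
    rfl
  have h2 : β.repr ⁅f (β i), β j⁆ k = ∑ p, LinearMap.toMatrix β β f p i * muOf β p j k := by
    conv_lhs => rw [← β.sum_repr (f (β i))]
    rw [sum_lie, map_sum, Finsupp.coe_finsetSum, Finset.sum_apply]
    refine Finset.sum_congr rfl fun r _ => ?_
    rw [LinearMap.toMatrix_apply, smul_lie, map_smul, Finsupp.smul_apply, smul_eq_mul]
    rfl
  have h3 : β.repr ⁅β i, f (β j)⁆ k = ∑ q, LinearMap.toMatrix β β f q j * muOf β i q k := by
    conv_lhs => rw [← β.sum_repr (f (β j))]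
    rw [lie_sum, map_sum, Finsupp.coe_finsetSum, Finset.sum_apply]
    refine Finset.sum_congr rfl fun r _ => ?_
    rw [LinearMap.toMatrix_apply, lie_smul, map_smul, Finsupp.smul_apply, smul_eq_mul]
    rfl
  rw [← h1, ← h2, ← h3, hf, map_add, Finsupp.add_apply]

theorem toEnd_der (y : g) (u v : n) : (LieModule.toEnd ℝ g n y) ⁅u, v⁆
    = ⁅(LieModule.toEnd ℝ g n y) u, v⁆ + ⁅u, (LieModule.toEnd ℝ g n y) v⁆ := by
  apply Subtype.ext
  show ⁅y, ⁅(u : g), (v : g)⁆⁆ = ⁅⁅y, (u : g)⁆, (v : g)⁆ + ⁅(u : g), ⁅y, (v : g)⁆⁆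
  exact leibniz_lie y (u : g) (v : g)

theorem asym_muOf : Asym (muOf β) := by
  intro i j k
  show β.repr ⁅β i, β j⁆ k = - β.repr ⁅β j, β i⁆ k
  rw [← lie_skew (β i) (β j), map_neg, Finsupp.neg_apply]

theorem jac_muOf : Jac (muOf β) := by
  intro i j k l
  have h (i j k l : Fin N) : ∑ r, muOf β i j r * muOf β r k l = β.repr ⁅⁅β i, β j⁆, β k⁆ l := by
    conv_rhs => rw [← β.sum_repr ⁅β i, β j⁆]
    rw [sum_lie, map_sum, Finsupp.coe_finsetSum, Finset.sum_apply]
    refine Finset.sum_congr rfl fun r _ => ?_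
    rw [smul_lie, map_smul, Finsupp.smul_apply, smul_eq_mul]
    rfl
  rw [Finset.sum_add_distrib, Finset.sum_add_distrib, h, h, h, ← Finsupp.add_apply, ← Finsupp.add_apply,
    ← map_add, ← map_add]
  have h0 : ⁅⁅β i, β j⁆, β k⁆ + ⁅⁅β j, β k⁆, β i⁆ + ⁅⁅β k, β i⁆, β j⁆ = 0 := by
    have h1 := lie_jacobi (β i) (β j) (β k)
    rw [← lie_skew ⁅β i, β j⁆ (β k), ← lie_skew ⁅β j, β k⁆ (β i), ← lie_skew ⁅β k, β i⁆ (β j)]
    rw [← neg_add, ← neg_add, neg_eq_zero]
    rw [← h1]; abel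
  rw [h0, map_zero, Finsupp.zero_apply]

end

theorem sy_trace {n : ℕ} (A : Mat n) : (sy A).trace = A.trace := by
  rw [sy, Matrix.trace_smul, Matrix.trace_add, Matrix.trace_transpose, smul_eq_mul]; ring

theorem tri_trace {n : ℕ} {μ : Br n} {A : Mat n} (h : Tri μ A) : A.trace = 0 := by
  obtain ⟨l, hl, _, h2⟩ := h
  have hl' : lᵀ * l = 1 := mul_eq_one_comm.1 hl
  have h3 : (l * A * lᵀ).trace = A.trace := by
    rw [Matrix.trace_mul_comm, ← Matrix.mul_assoc, hl', Matrix.one_mul]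
  rw [← h3, Matrix.trace]
  refine Finset.sum_eq_zero fun i _ => ?_
  by_contra hne
  exact absurd (h2 i i hne) (lt_irrefl _)

theorem fwd (hDER : P_DER) (hHC : P_HCHAIN) (hJC : P_JC) (hNORM : P_NORM) (hFUG : P_FUG)
    (hDERT : P_DERT) (hTRI0 : P_TRI0) (hG1 : P_G1) (hG2 : P_G2) (hTRN : P_TRN) (hNEC : P_NEC)
    (hCEN : P_CEN) (hTRIC : P_TRIC) (hMAIN : P_MAIN) : P_FWD := by
  intro g _ _ _ _ _ n hn hneg
  have hder := hDER g n hn
  obtain ⟨h, m, y, hnil, hspan, hsup, hchain⟩ := hHC g n hder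
  obtain ⟨k, e, hek, hmet⟩ := hG1 g n hn.1 hder hneg
  set τ : Fin k → ℝ := fun i => LinearMap.trace ℝ g (LieAlgebra.ad ℝ g (e i)) with hτ
  set H : g := ∑ i, (LinearMap.trace ℝ g (LieAlgebra.ad ℝ g (e i))) • e i with hH
  have htop : ∀ x : g, ∃ u ∈ h.toSubmodule, ∃ v ∈ n.toSubmodule, u + v = x := by
    intro x
    have : x ∈ h.toSubmodule ⊔ n.toSubmodule := hsup ▸ Submodule.mem_top
    exact Submodule.mem_sup.1 this
  obtain ⟨Y, hYh, x0, hx0, hHY⟩ := htop H
  -- the family z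
  set z : Fin (m+1) → g := Fin.snoc y Y with hz
  have hzc : ∀ i : Fin m, z i.castSucc = y i := fun i => by simp [hz]
  have hzl : z (Fin.last m) = Y := by simp [hz]
  have hzh : ∀ i, z i ∈ h := by
    intro i
    refine Fin.lastCases ?_ (fun i => ?_) i
    · rw [hzl]; exact hYh
    · rw [hzc]
      have : y i ∈ h.toSubmodule := hspan ▸ Submodule.subset_span ⟨i, rfl⟩
      exact this
  obtain ⟨S, hSs, hSn, hSS, hSz, hSd⟩ := hJC g n h hnil (m+1) z hzh
  obtain ⟨N, hN⟩ : ∃ N, Module.finrank ℝ n = N := ⟨_, rfl⟩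
  obtain ⟨β, d, hnorm, hdiag⟩ := hNORM n N m S hN hSs hSS
  -- N > 0
  have hNpos : 0 < N := by
    by_contra hcon
    have h0 : Module.finrank ℝ n = 0 := by omega
    have hsub : Subsingleton n := Module.finrank_zero_iff.1 h0
    have hab : ∀ x y : g, ⁅x, y⁆ = 0 := by
      intro x y
      have := Subsingleton.elim (⟨⁅x, y⁆, hder x y⟩ : n) 0
      exact congrArg Subtype.val this
    have hab' : IsLieAbelian (⊤ : LieIdeal ℝ g) := by
      constructor
      intro a b
      apply Subtype.ext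
      exact hab _ _
    have hle : (⊤ : LieIdeal ℝ g) ≤ n := hn.2 ⊤ inferInstance
    obtain ⟨x, hx⟩ := exists_ne (0 : g)
    have hxn : x ∈ n := hle (LieSubmodule.mem_top x)
    have := Subsingleton.elim (⟨x, hxn⟩ : n) 0
    exact hx (congrArg Subtype.val this)
  set M : Fin (m+1) → Mat N := fun i => LinearMap.toMatrix β β (S i) with hM
  set μ := muOf β with hμ
  have hasym : Asym μ := asym_muOf β
  have hjac : Jac μ := jac_muOf β
  have hadz : ∀ i, adOf β (z i) = LinearMap.toMatrix β β (LieModule.toEnd ℝ g n (z i)) :=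
    fun i => adOf_eq_toMatrix β (z i)
  have hMM : ∀ i j, M i * M j = M j * M i := by
    intro i j
    simp only [hM]
    rw [← LinearMap.toMatrix_mul, ← LinearMap.toMatrix_mul, (hSS i j).eq]
  have hMA : ∀ i j, M i * adOf β (z j) = adOf β (z j) * M i := by
    intro i j
    simp only [hM]
    rw [hadz, ← LinearMap.toMatrix_mul, ← LinearMap.toMatrix_mul, (hSz i j).eq]
  have hMn : ∀ i, M i * (M i)ᵀ = (M i)ᵀ * M i := hnorm
  have hMMt : ∀ i j, M j * (M i)ᵀ = (M i)ᵀ * M j := fun i j =>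
    hFUG N (M i) (M j) (hMn i) (hMM j i)
  have hAMt : ∀ i j, adOf β (z j) * (M i)ᵀ = (M i)ᵀ * adOf β (z j) := fun i j =>
    hFUG N (M i) (adOf β (z j)) (hMn i) (hMA i j).symm
  have hMtMt : ∀ i j, (M j)ᵀ * (M i)ᵀ = (M i)ᵀ * (M j)ᵀ := by
    intro i j
    rw [← Matrix.transpose_mul, ← Matrix.transpose_mul, hMM i j]
  have hMd : ∀ i, IsDer (M i) μ := fun i => isDer_toMatrix β (S i) (hSd i)
  have hMtd : ∀ i, IsDer (M i)ᵀ μ := fun i => hDERT N (M i) μ (hMn i) (hMd i)
  have hdM : diagonal d = (1/2 : ℝ) • (M (Fin.last m) + (M (Fin.last m))ᵀ) := hdiag.symm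
  set T : Set (Mat N) := {X | (∃ i, X = M i) ∨ (∃ i, X = (M i)ᵀ) ∨ X = diagonal d} with hT
  -- commuting criterion
  have hcomm : ∀ X : Mat N, (∀ i, M i * X = X * M i) → (∀ i, (M i)ᵀ * X = X * (M i)ᵀ) →
      ∀ A ∈ T, A * X = X * A := by
    intro X h1 h2 A hA
    rcases hA with ⟨i, rfl⟩ | ⟨i, rfl⟩ | rfl
    · exact h1 i
    · exact h2 i
    · rw [hdM, Matrix.smul_mul, Matrix.mul_smul, Matrix.add_mul, Matrix.mul_add, h1, h2]
  have hTA : ∀ A ∈ T, ∀ j, A * adOf β (z j) = adOf β (z j) * A := fun A hA j =>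
    hcomm _ (fun i => hMA i j) (fun i => (hAMt i j).symm) A hA
  have hTM : ∀ A ∈ T, ∀ j, A * M j = M j * A := fun A hA j =>
    hcomm _ (fun i => hMM i j) (fun i => (hMMt i j).symm) A hA
  have hTMt : ∀ A ∈ T, ∀ j, A * (M j)ᵀ = (M j)ᵀ * A := fun A hA j =>
    hcomm _ (fun i => hMMt j i) (fun i => hMtMt j i) A hA
  have hTd : ∀ A ∈ T, A * diagonal d = diagonal d * A := by
    intro A hA
    rw [hdM, Matrix.smul_mul, Matrix.mul_smul, Matrix.add_mul, Matrix.mul_add, hTM A hA, hTMt A hA]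
  have hTT : ∀ A ∈ T, ∀ A' ∈ T, A * A' = A' * A := by
    intro A hA A' hA'
    rcases hA' with ⟨i, rfl⟩ | ⟨i, rfl⟩ | rfl
    · exact hTM A hA i
    · exact hTMt A hA i
    · exact hTd A hA
  have hTt : ∀ A ∈ T, Aᵀ ∈ T := by
    intro A hA
    rcases hA with ⟨i, rfl⟩ | ⟨i, rfl⟩ | rfl
    · exact Or.inr (Or.inl ⟨i, rfl⟩)
    · exact Or.inl ⟨i, by rw [Matrix.transpose_transpose]⟩
    · exact Or.inr (Or.inr (by rw [Matrix.diagonal_transpose]))
  have hTder : ∀ A ∈ T, IsDer A μ := by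
    intro A hA
    rcases hA with ⟨i, rfl⟩ | ⟨i, rfl⟩ | rfl
    · exact hMd i
    · exact hMtd i
    · rw [hdM]
      intro i j k
      have h1 := hMd (Fin.last m) i j k
      have h2 := hMtd (Fin.last m) i j k
      simp only [Matrix.smul_apply, Matrix.add_apply, smul_eq_mul]
      have e1 : ∀ (f f' g : Fin N → ℝ), ∑ r, 1/2 * (f r + f' r) * g r
          = 1/2 * (∑ r, f r * g r + ∑ r, f' r * g r) := by
        intro f f' g
        rw [← Finset.sum_add_distrib, Finset.mul_sum]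
        exact Finset.sum_congr rfl fun r _ => by ring
      rw [e1, e1 (fun p => M (Fin.last m) p i), e1 (fun p => M (Fin.last m) p j), h1, h2]
      ring
  -- nilpotent parts
  have hDS : ∀ i, ∀ u v : n, (LieModule.toEnd ℝ g n (z i) - S i) ⁅u, v⁆
      = ⁅(LieModule.toEnd ℝ g n (z i) - S i) u, v⁆ + ⁅u, (LieModule.toEnd ℝ g n (z i) - S i) v⁆ := by
    intro i u v
    rw [LinearMap.sub_apply, LinearMap.sub_apply, LinearMap.sub_apply, toEnd_der, hSd, sub_lie, lie_sub]
    abel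
  have htri : ∀ i, Tri μ (adOf β (z i) - M i) := by
    intro i
    have := hTRI0 n N β (LieModule.toEnd ℝ g n (z i) - S i) hn.1 (hSn i) (hDS i)
    rw [map_sub, ← adOf_eq_toMatrix] at this
    exact this
  have hNd : ∀ i, IsDer (adOf β (z i) - M i) μ := by
    intro i
    have := isDer_toMatrix β (LieModule.toEnd ℝ g n (z i) - S i) (hDS i)
    rw [map_sub, ← adOf_eq_toMatrix] at this
    exact this
  have htri0 : Tri μ 0 := (hTRIC N μ _ 1 1 (htri (Fin.last m))).1
  -- the metric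
  obtain ⟨c, F, δ, hδ, hc, hF, hineq⟩ := hmet N β
  have hadder : ∀ x : g, IsDer (adOf β x) μ := by
    intro x
    rw [adOf_eq_toMatrix]
    exact isDer_toMatrix β _ (toEnd_der x)
  -- trace of H
  have htrn : ∀ x ∈ n, (adOf β x).trace = 0 := by
    intro x hx
    rw [adOf_eq_toMatrix, ← LinearMap.trace_eq_matrix_trace]
    have h1 : LieModule.toEnd ℝ g n x = LieAlgebra.ad ℝ n ⟨x, hx⟩ := rfl
    rw [h1]
    have hnil' : LieRing.IsNilpotent n := hn.1
    have h2 : IsNilpotent (LieAlgebra.ad ℝ n ⟨x, hx⟩) :=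
      LieModule.isNilpotent_toEnd_of_isNilpotent ℝ n n _
    exact (LinearMap.isNilpotent_trace_of_isNilpotent h2).eq_zero
  have htrH : (adOf β H).trace = ∑ i, (τ i)^2 := by
    rw [← hTRN g n N β hder H, hH]
    rw [map_sum, map_sum]
    refine Finset.sum_congr rfl fun i _ => ?_
    rw [map_smul, map_smul, smul_eq_mul, sq]
  have hτpos : 0 < ∑ i, (τ i)^2 := by
    by_contra hcon
    have h0 : ∀ i, τ i = 0 := by
      have h1 : ∑ i, (τ i)^2 = 0 :=
        le_antisymm (not_lt.1 hcon) (Finset.sum_nonneg fun i _ => sq_nonneg _)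
      intro i
      have := (Finset.sum_eq_zero_iff_of_nonneg (fun i _ => sq_nonneg (τ i))).1 h1 i (Finset.mem_univ i)
      exact pow_eq_zero_iff (two_ne_zero) |>.1 this
    have hH0 : H = 0 := by
      rw [hH]
      refine Finset.sum_eq_zero fun i _ => ?_
      have := h0 i
      simp only [hτ] at this
      rw [this, zero_smul]
    obtain ⟨l, a, hl, ha, ⟨i0, hi0⟩, hcb, hcm⟩ := hCEN N μ hNpos hasym htri0
    have h1 := hNEC N k μ (fun i => adOf β (e i)) (adOf β H) F c δ hasym hc hF hineq l a hl ha hcb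
      (fun i => hcm _ (hadder _)) (hcm _ (hadder _))
    rw [hH0, adOf_zero] at h1
    have h2 : dt (0 : Mat N) l a = 0 := by simp [dt]
    rw [h2] at h1
    have h3 : 0 < ∑ i, a i := Finset.sum_pos' (fun i _ => ha i) ⟨i0, Finset.mem_univ _, hi0⟩
    nlinarith
  have hYH : adOf β Y = adOf β H - adOf β x0 := by
    rw [← hHY, adOf_add]; abel
  have hAY : (adOf β Y).trace = ∑ i, (τ i)^2 := by
    rw [hYH, Matrix.trace_sub, htrH, htrn x0 hx0, sub_zero]
  have hd : ∑ i, d i = ∑ i, (τ i)^2 := by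
    have h1 : (diagonal d).trace = ∑ i, d i := Matrix.trace_diagonal d
    rw [← h1, ← hdiag, sy_trace]
    have h2 := tri_trace (htri (Fin.last m))
    rw [Matrix.trace_sub, hzl] at h2
    have h3 : (M (Fin.last m)).trace = (adOf β Y).trace := by linarith
    rw [← hAY, ← h3]
  have hYn : Y ∉ n := by
    intro hY
    have := htrn Y hY
    rw [hAY] at this
    linarith
  -- MAIN
  have hAspan : ∀ x ∈ h.toSubmodule, adOf β x ∈ Submodule.span ℝ (Set.range fun i : Fin m => adOf β (y i)) := by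
    intro x hx
    rw [← hspan] at hx
    have := adOf_mem_span β hx
    rwa [← Set.range_comp] at this
  have hmain := hMAIN N m k μ (fun i => adOf β (y i)) (fun i => M i.castSucc)
    (fun i => adOf β (y i) - M i.castSucc) T (adOf β Y) (M (Fin.last m))
    (adOf β Y - M (Fin.last m)) (adOf β H) F c (fun i => adOf β (e i)) d δ hNpos hasym hjac
    (by have := htri (Fin.last m); rwa [hzl] at this)
    (fun i => by
      refine ⟨by simp, Or.inl ⟨_, rfl⟩, ?_, ?_⟩
      · have := (hTRIC N μ _ 1 1 (htri i.castSucc)).2.1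
        rwa [hzc] at this
      · have := hNd i.castSucc
        rwa [hzc] at this)
    hTt (fun A hA i => by have := hTA A hA i.castSucc; rwa [hzc] at this) hTT hTder
    (fun i j hij => by
      have h1 := adOf_mem_span β (hchain i j hij)
      rw [adOf_lie, ← Set.image_comp] at h1
      exact h1)
    (by simp) (hAspan Y hYh) (Or.inl ⟨_, rfl⟩) hdiag (Or.inr (Or.inr rfl))
    (by have := hNd (Fin.last m); rwa [hzl] at this)
    (fun A hA => by
      have h1 := hTA A hA (Fin.last m)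
      rw [hzl] at h1
      rw [Matrix.mul_sub, Matrix.sub_mul, h1, hTM A hA])
    hδ hc hF
    (fun i => by
      obtain ⟨u, hu, v, hv, huv⟩ := htop (e i)
      rw [← huv, adOf_add]
      exact Submodule.add_mem_sup (hAspan u hu) (adOf_n_mem β v hv))
    (by
      have : adOf β H - adOf β Y = adOf β x0 := by rw [hYH]; abel
      rw [this]
      exact adOf_n_mem β x0 hx0)
    hineq (by rw [hd]; exact hτpos)
  obtain ⟨c', hc', hR⟩ := hmain
  -- the subalgebra
  let K : LieSubalgebra ℝ g :=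
    { (Submodule.span ℝ {Y} ⊔ n.toSubmodule) with
      lie_mem' := fun {x y} _ _ => Submodule.mem_sup_right (hder x y) }
  refine ⟨Y, hYn, K, rfl, ?_⟩
  exact hG2 g n Y K N β c' (∑ i, d i) hn.1 hYn rfl hc' (by rw [hd]; exact hτpos) hR

end R877.RN
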