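import Pool.Agent.R877.RN.Stm

/-! RN-QR: Gram-Schmidt adapted to weights. -/

namespace R877.RN

open Matrix Filter Topology InnerProductSpace

namespace QRAux

theorem inner_sum {n : ℕ} (x y : EuclideanSpace ℝ (Fin n)) :
    inner ℝ x y = ∑ r, x r * y r := by
  rw [PiLp.inner_apply]
  refine Finset.sum_congr rfl fun r _ => ?_
  simp [mul_comm]

end QRAux

open QRAux in
theorem p_QR : P_QR := by
  classical
  intro n a c _
  -- sorting permutation
  set σ : Equiv.Perm (Fin n) := Tuple.sort (fun i => -a i) with hσ
  have hmono : Monotone ((fun i => -a i) ∘ σ) := Tuple.monotone_sort _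
  have hcard : Module.finrank ℝ (EuclideanSpace ℝ (Fin n)) = Fintype.card (Fin n) := by simp
  set v : Fin n → EuclideanSpace ℝ (Fin n) := fun m => WithLp.toLp 2 (fun r => c r (σ m)) with hv
  set u := gramSchmidtOrthonormalBasis hcard v with hu
  have hvr : ∀ m r, v m r = c r (σ m) := fun m r => rfl
  set k : Mat n := fun i r => u (σ.symm i) r with hk
  refine ⟨k, ?_, ?_⟩
  · unfold IsO
    ext i j
    have h1 : (k * kᵀ) i j = inner ℝ (u (σ.symm i)) (u (σ.symm j)) := by
      rw [inner_sum]
      rfl
    rw [h1, Matrix.one_apply]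
    have h2 := orthonormal_iff_ite.1 u.orthonormal (σ.symm i) (σ.symm j)
    rw [h2]
    simp only [EmbeddingLike.apply_eq_iff_eq]
  · intro i j hij
    have h1 : (k * c) i j = inner ℝ (u (σ.symm i)) (v (σ.symm j)) := by
      rw [inner_sum, Matrix.mul_apply]
      refine Finset.sum_congr rfl fun r _ => ?_
      rw [hvr, Equiv.apply_symm_apply]
    by_contra hcon
    push Not at hcon
    apply hij
    rw [h1]
    apply gramSchmidtOrthonormalBasis_inv_triangular
    by_contra hle
    rw [not_lt] at hle
    have h3 := hmono hle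
    simp only [Function.comp_apply, Equiv.apply_symm_apply] at h3
    linarith

end R877.RN
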