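import Pool.Agent.R877.RN.Stm2

/-! Project RN, piece TRI0: a nilpotent Lie algebra with a nilpotent derivation is strictly
triangular in an orthonormal frame. -/

namespace R877.RN
open Matrix Filter Topology

namespace TRI0

theorem flag {E : Type} [NormedAddCommGroup E] [InnerProductSpace ℝ E] [FiniteDimensional ℝ E]
    {ι : Type} (T : ι → E →ₗ[ℝ] E) (hT : ∀ V : Submodule ℝ E, V ≤ ⨆ i, V.map (T i) → V = ⊥) :
    ∀ (n : ℕ) (V : Submodule ℝ E), Module.finrank ℝ V = n → (∀ i, V.map (T i) ≤ V) →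
      ∃ f : Fin n → E, (∀ k, ‖f k‖ = 1) ∧ (∀ k i, k ≠ i → inner ℝ (f k) (f i) = 0) ∧ (∀ k, f k ∈ V) ∧
        ∀ (s : ι) (k i : Fin n), inner ℝ (f k) (T s (f i)) ≠ 0 → i < k := by
  intro n
  induction n with
  | zero =>
    intro V _ _
    exact ⟨fun k => k.elim0, fun k => k.elim0, fun k => k.elim0, fun k => k.elim0,
      fun _ k => k.elim0⟩
  | succ n ih =>
    intro V hV hinv
    obtain ⟨U, hU⟩ : ∃ U : Submodule ℝ E, U = ⨆ i, V.map (T i) := ⟨_, rfl⟩
    have hUV : U ≤ V := hU ▸ iSup_le hinv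
    have hne : ¬ V ≤ U := by
      intro h
      have h1 := hT V (hU ▸ h)
      rw [h1, finrank_bot] at hV
      omega
    obtain ⟨x, hxV, hxU⟩ := SetLike.not_le_iff_exists.1 hne
    obtain ⟨y, hyV, hyU, hy0⟩ : ∃ y ∈ V, y ∈ Uᗮ ∧ y ≠ 0 := by
      refine ⟨x - U.starProjection x, V.sub_mem hxV (hUV (U.starProjection_apply_mem x)),
        Submodule.sub_starProjection_mem_orthogonal x, ?_⟩
      intro h
      rw [sub_eq_zero] at h
      apply hxU
      rw [h]
      exact U.starProjection_apply_mem x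
    have hyn : ‖y‖ ≠ 0 := norm_ne_zero_iff.2 hy0
    obtain ⟨v, hv⟩ : ∃ v : E, v = ‖y‖⁻¹ • y := ⟨_, rfl⟩
    have hvV : v ∈ V := hv ▸ V.smul_mem _ hyV
    have hvU : v ∈ Uᗮ := hv ▸ Uᗮ.smul_mem _ hyU
    have hv1 : ‖v‖ = 1 := by
      rw [hv, norm_smul, norm_inv, norm_norm, inv_mul_cancel₀ hyn]
    have hv0 : v ≠ 0 := by
      intro h; rw [h, norm_zero] at hv1; exact zero_ne_one hv1
    have hsp : Submodule.span ℝ {v} ≤ V := (Submodule.span_singleton_le_iff_mem _ _).2 hvV
    have hfin := Submodule.finrank_add_inf_finrank_orthogonal hsp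
    rw [finrank_span_singleton hv0, hV] at hfin
    obtain ⟨V', hV'⟩ : ∃ V' : Submodule ℝ E, V' = (Submodule.span ℝ {v})ᗮ ⊓ V := ⟨_, rfl⟩
    have hfin' : Module.finrank ℝ V' = n := by rw [hV']; omega
    have hmem : ∀ z, z ∈ V' ↔ inner ℝ v z = 0 ∧ z ∈ V := by
      intro z
      rw [hV', Submodule.mem_inf, Submodule.mem_orthogonal_singleton_iff_inner_right]
    have hUV' : U ≤ V' := by
      intro z hz
      rw [hmem]
      refine ⟨?_, hUV hz⟩
      have := (Submodule.mem_orthogonal U v).1 hvU z hz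
      rw [real_inner_comm]
      exact this
    have hTU : ∀ s, ∀ z ∈ V, T s z ∈ U := by
      intro s z hz
      rw [hU]
      exact Submodule.mem_iSup_of_mem s (Submodule.mem_map_of_mem hz)
    obtain ⟨f, hf1, hf2, hf3, hf4⟩ := ih V' hfin' (by
      intro s
      rintro _ ⟨z, hz, rfl⟩
      exact hUV' (hTU s z ((hmem z).1 hz).2))
    refine ⟨Fin.cons v f, ?_, ?_, ?_, ?_⟩
    · intro k
      refine Fin.cases ?_ (fun k => ?_) k
      · simpa using hv1
      · simpa using hf1 k
    · intro k i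
      refine Fin.cases ?_ (fun k => ?_) k <;> refine Fin.cases ?_ (fun i => ?_) i
      · intro h; exact absurd rfl h
      · intro _
        simpa using ((hmem _).1 (hf3 i)).1
      · intro _
        rw [Fin.cons_succ, Fin.cons_zero, real_inner_comm]
        exact ((hmem _).1 (hf3 k)).1
      · intro h
        rw [Fin.cons_succ, Fin.cons_succ]
        exact hf2 k i (fun e => h (by rw [e]))
    · intro k
      refine Fin.cases ?_ (fun k => ?_) k
      · simpa using hvV
      · simpa using ((hmem _).1 (hf3 k)).2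
    · have hall : ∀ i, (Fin.cons v f : Fin (n + 1) → E) i ∈ V := by
        intro i
        refine Fin.cases ?_ (fun i => ?_) i
        · simpa using hvV
        · simpa using ((hmem _).1 (hf3 i)).2
      intro s k i
      refine Fin.cases ?_ (fun k => ?_) k
      · intro h
        exfalso
        apply h
        rw [Fin.cons_zero]
        exact ((hmem _).1 (hUV' (hTU s _ (hall i)))).1
      · refine Fin.cases ?_ (fun i => ?_) i
        · intro _; exact Fin.succ_pos k
        · intro h
          rw [Fin.cons_succ, Fin.cons_succ] at h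
          exact Fin.succ_lt_succ_iff.2 (hf4 s k i h)

section lie
variable {L : Type} [LieRing L] [LieAlgebra ℝ L]

/-- the operators -/
noncomputable def op (D : Module.End ℝ L) : Option L → Module.End ℝ L
  | none => D
  | some x => LieAlgebra.ad ℝ L x

theorem lcs_der (D : Module.End ℝ L) (hD : ∀ u v : L, D ⁅u, v⁆ = ⁅D u, v⁆ + ⁅u, D v⁆) (k : ℕ) :
    ∀ z ∈ LieModule.lowerCentralSeries ℝ L L k, D z ∈ LieModule.lowerCentralSeries ℝ L L k := by
  induction k with
  | zero => intro z _; simp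
  | succ k ih =>
    intro z hz
    rw [LieModule.lowerCentralSeries_succ] at hz ⊢
    rw [← LieSubmodule.mem_toSubmodule, LieSubmodule.lieIdeal_oper_eq_linear_span'] at hz
    refine Submodule.span_induction ?_ ?_ ?_ ?_ hz
    · rintro _ ⟨x, hx, n, hn, rfl⟩
      rw [hD]
      exact add_mem (LieSubmodule.lie_mem_lie (LieSubmodule.mem_top _) hn)
        (LieSubmodule.lie_mem_lie hx (ih n hn))
    · rw [map_zero]; exact zero_mem _
    · intro a b _ _ ha hb; rw [map_add]; exact add_mem ha hb
    · intro r a _ ha; rw [map_smul]; exact SMulMemClass.smul_mem r ha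

theorem nilp (D : Module.End ℝ L) (hn : LieRing.IsNilpotent L) (hDn : IsNilpotent D)
    (hD : ∀ u v : L, D ⁅u, v⁆ = ⁅D u, v⁆ + ⁅u, D v⁆) (V : Submodule ℝ L)
    (hV : V ≤ ⨆ i, V.map (op D i)) : V = ⊥ := by
  have := hn
  obtain ⟨K, hK⟩ := LieModule.IsNilpotent.nilpotent ℝ L L
  obtain ⟨m, hm⟩ := hDn
  have key : ∀ k, V ≤ (LieModule.lowerCentralSeries ℝ L L k).toSubmodule := by
    intro k
    induction k with
    | zero => simp
    | succ k ih =>
      have h1 : ∀ x : L, V.map (LieAlgebra.ad ℝ L x) ≤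
          (LieModule.lowerCentralSeries ℝ L L (k + 1)).toSubmodule := by
        intro x
        rintro _ ⟨z, hz, rfl⟩
        rw [LieModule.lowerCentralSeries_succ]
        exact LieSubmodule.lie_mem_lie (LieSubmodule.mem_top x) (ih hz)
      have h2 : V ≤ (LieModule.lowerCentralSeries ℝ L L (k + 1)).toSubmodule ⊔ V.map D := by
        refine hV.trans (iSup_le fun i => ?_)
        cases i with
        | none => exact le_sup_right
        | some x => exact (h1 x).trans le_sup_left
      have h3 : ∀ j : ℕ, V ≤ (LieModule.lowerCentralSeries ℝ L L (k + 1)).toSubmodule ⊔ V.map (D ^ j) := by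
        intro j
        induction j with
        | zero =>
          refine le_sup_of_le_right ?_
          intro z hz
          exact ⟨z, hz, by simp⟩
        | succ j ihj =>
          refine h2.trans (sup_le le_sup_left ?_)
          rintro _ ⟨z, hz, rfl⟩
          obtain ⟨a, ha, b, hb, rfl⟩ := Submodule.mem_sup.1 (ihj hz)
          obtain ⟨c, hc, rfl⟩ := hb
          rw [map_add]
          refine Submodule.add_mem_sup (lcs_der D hD _ a ha) ⟨c, hc, ?_⟩
          rw [pow_succ']
          rfl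
      have h4 := h3 m
      rw [hm, Submodule.map_zero, sup_bot_eq] at h4
      exact h4
  have h5 := key K
  rw [hK] at h5
  simpa using h5

end lie

theorem sum3 {N : ℕ} (F : Fin N → Fin N → Fin N → ℝ) :
    ∑ p, ∑ q, ∑ r, F p q r = ∑ r, ∑ q, ∑ p, F p q r := by
  rw [Finset.sum_comm]
  have h : ∀ q, ∑ p, ∑ r, F p q r = ∑ r, ∑ p, F p q r := fun q => Finset.sum_comm
  rw [Finset.sum_congr rfl fun q _ => h q, Finset.sum_comm]

end TRI0

open TRI0

theorem p_TRI0 : P_TRI0 := by
  intro L _ _ N β D hn hDn hD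
  obtain ⟨φ, hφ⟩ : ∃ φ : L ≃ₗ[ℝ] EuclideanSpace ℝ (Fin N),
      φ = β.equivFun.trans (WithLp.linearEquiv 2 ℝ (Fin N → ℝ)).symm := ⟨_, rfl⟩
  have hφr : ∀ z r, (φ z) r = β.repr z r := by
    intro z r; rw [hφ]; rfl
  obtain ⟨f, hf1, hf2, -, hf4⟩ := flag (E := EuclideanSpace ℝ (Fin N))
    (fun i : Option L => φ.toLinearMap ∘ₗ (op D i) ∘ₗ φ.symm.toLinearMap) (by
      intro V hV
      have h1 := nilp D hn hDn hD (V.map φ.symm.toLinearMap) (by
        rintro _ ⟨z, hz, rfl⟩
        have h2 := hV hz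
        have h3 : (⨆ i, V.map (φ.toLinearMap ∘ₗ (op D i) ∘ₗ φ.symm.toLinearMap)) ≤
            (⨆ i, (V.map φ.symm.toLinearMap).map (op D i)).comap φ.symm.toLinearMap := by
          refine iSup_le fun i => ?_
          rintro _ ⟨w, hw, rfl⟩
          rw [Submodule.mem_comap]
          refine Submodule.mem_iSup_of_mem i ⟨φ.symm w, ⟨w, hw, rfl⟩, ?_⟩
          simp
        exact h3 h2)
      rw [Submodule.eq_bot_iff] at h1 ⊢
      intro z hz
      have := h1 (φ.symm z) ⟨z, hz, rfl⟩
      simpa using this) N ⊤ (by simp) (fun _ => le_top)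
  have hu : ∀ i, φ.symm (f i) = ∑ p, f i p • β p := by
    intro i
    apply φ.injective
    rw [LinearEquiv.apply_symm_apply]
    ext r
    rw [hφr]
    simp [Finsupp.single_apply]
  have hin : ∀ (a : EuclideanSpace ℝ (Fin N)) (b : L), inner ℝ a (φ b) = ∑ r, a r * β.repr b r := by
    intro a b
    rw [PiLp.inner_apply]
    refine Finset.sum_congr rfl fun r _ => ?_
    rw [hφr]
    simp [mul_comm]
  obtain ⟨l, hl⟩ : ∃ l : Mat N, l = Matrix.of (fun i j => f i j) := ⟨_, rfl⟩
  have hli : ∀ i j, l i j = f i j := fun i j => by rw [hl]; rfl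
  have hO : l * lᵀ = 1 := by
    ext i j
    rw [Matrix.mul_apply]
    have h1 : ∑ k, l i k * lᵀ k j = inner ℝ (f i) (f j) := by
      rw [PiLp.inner_apply]
      refine Finset.sum_congr rfl fun r _ => ?_
      rw [Matrix.transpose_apply, hli, hli]
      simp [mul_comm]
    rw [h1]
    by_cases h : i = j
    · subst h
      rw [real_inner_self_eq_norm_sq, hf1, Matrix.one_apply_eq]; norm_num
    · rw [hf2 i j h, Matrix.one_apply_ne h]
  have hinv : l⁻¹ = lᵀ := Matrix.inv_eq_right_inv hO
  have hbr : ∀ i j k, act l (sc β) i j k = inner ℝ (f k) (φ ⁅φ.symm (f i), φ.symm (f j)⁆) := by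
    intro i j k
    rw [hin, hu i, hu j]
    unfold act sc
    rw [hinv]
    simp only [Matrix.transpose_apply, hli]
    simp only [sum_lie, lie_sum, smul_lie, lie_smul, map_sum, map_smul,
      Finsupp.coe_finsetSum, Finsupp.coe_smul, Finset.sum_apply, Pi.smul_apply, smul_eq_mul,
      Finset.mul_sum]
    rw [sum3]
    refine Finset.sum_congr rfl fun r _ => Finset.sum_congr rfl fun q _ =>
      Finset.sum_congr rfl fun p _ => ?_
    ring
  refine ⟨l, hO, ?_, ?_⟩
  · intro i j k h
    rw [hbr] at h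
    constructor
    · apply hf4 (some (φ.symm (f j))) k i
      intro h0
      apply h
      have h1 : ⁅φ.symm (f i), φ.symm (f j)⁆ = - ⁅φ.symm (f j), φ.symm (f i)⁆ := (lie_skew _ _).symm
      rw [h1, map_neg, inner_neg_right]
      have h2 : φ ⁅φ.symm (f j), φ.symm (f i)⁆ =
        (φ.toLinearMap ∘ₗ (op D (some (φ.symm (f j)))) ∘ₗ φ.symm.toLinearMap) (f i) := rfl
      rw [h2, h0, neg_zero]
    · exact hf4 (some (φ.symm (f i))) k j h
  · intro k i h
    apply hf4 none k i
    intro h0
    apply h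
    have h2 : (φ.toLinearMap ∘ₗ (op D none) ∘ₗ φ.symm.toLinearMap) (f i) = φ (D (φ.symm (f i))) := rfl
    rw [h2, hin, hu i] at h0
    rw [← h0]
    rw [Matrix.mul_apply]
    simp only [Matrix.mul_apply, Matrix.transpose_apply, hli, LinearMap.toMatrix_apply, map_sum,
      map_smul, Finsupp.coe_finsetSum, Finsupp.coe_smul, Finset.sum_apply, Pi.smul_apply,
      smul_eq_mul, Finset.mul_sum, Finset.sum_mul]
    rw [Finset.sum_comm]
    refine Finset.sum_congr rfl fun r _ => Finset.sum_congr rfl fun p _ => ?_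
    ring

end R877.RN
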