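import Pool.Agent.R877.RN.FinalB
import Pool.Agent.R877.RN.Fwd
import Pool.Agent.R877.RN.BASA
import Pool.Agent.R928.RN.BASB
import Pool.Agent.R877.RN.QR
import Pool.Agent.R92.RN.PARA
import Pool.Agent.R326.RN.PARB
import Pool.Agent.R227.RN.NEC
import Pool.Agent.R451.RN.ADC
import Pool.Agent.R150.RN.SPEED
import Pool.Agent.R702.RN.EXD
import Pool.Agent.R801.RN.EXL
import Pool.Agent.R398.RN.FLAG
import Pool.Agent.R784.RN.CHN
import Pool.Agent.R818.RN.CHI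
import Pool.Agent.R456.RN.KNMIN
import Pool.Agent.R180.RN.EL
import Pool.Agent.R670.RN.MCOM
import Pool.Agent.R784.RN.KN
import Pool.Agent.R687.RN.BOUND
import Pool.Agent.R984.RN.TRI
import Pool.Agent.R758.RN.TR0
import Pool.Agent.R923.RN.PERT
import Pool.Agent.R273.RN.MAIN
import Pool.Agent.R780.RN.HCHAIN
import Pool.Agent.Helper348.RN.JC
import Pool.Agent.R289.RN.NORM
import Pool.Agent.Helper348.RN.FUG
import Pool.Agent.R877.RN.TRI0
import Pool.Agent.R294.RN.G1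
import Pool.Agent.R604.RN.G2
import Pool.Agent.R784.RN.TRN

namespace R877.RN

theorem f_BT : P_BT := p_BT p_PINV
theorem f_NEC : P_NEC := Pool.Agent.R227.RN.p_NEC p_QR p_PINV f_BT p_ACTP p_ACTMUL p_MROT p_MTR
theorem f_FLAG : P_FLAG := p_FLAG p_QR p_PINV f_BT p_ACTP p_SPEED p_EXD p_EXL p_ACTMUL
theorem f_CHN : P_CHN := p_CHN f_FLAG
theorem f_KN : P_KN := p_KN (p_KNMIN p_ACTMUL p_CHI) (p_EL p_CHV p_ACTMUL) p_MCOM p_DERACT
theorem f_BOUND : P_BOUND := p_BOUND p_MTR p_MROT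
theorem f_TRIC : P_TRIC := p_TRIC p_QR p_ACTMUL p_PINV

theorem f_MAIN : P_MAIN :=
  p_MAIN p_ACTMUL p_DERACT p_ASYMACT p_JACT p_NIL0 f_NEC p_ADC f_FLAG f_CHN f_KN f_BOUND p_TRICL
    f_TRIC p_TR0 p_PERT

theorem final_fwd : P_FWD :=
  fwd p_DER p_HCHAIN p_JC p_NORM p_FUG p_DERT p_TRI0 (p_G1 p_RIC) (p_G2 p_RIC p_LC p_EXT) p_TRN
    f_NEC p_CEN f_TRIC f_MAIN

end R877.RN
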