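import Pool.Agent.R179.RN.ZEXT
import Pool.Agent.R843.RN.ZSOL
import Pool.Agent.R640.RN.ZSKEW
import Pool.Agent.R784.RN.ZOPEN
import Pool.Agent.R6.RN.ZSTEP
import Pool.Agent.R819.RN.ZLIE
import Pool.Agent.R403.RN.RIC
import Pool.Agent.H44.RN.LC
import Pool.Agent.R62.RN.DER
import Pool.Agent.R198.RN.ZCH

namespace R877.RN

theorem final_bwd : P_BWD :=
  p_BWD (p_ZLIE (p_ZSTEP p_EXT p_SOL p_SKEW p_OPENN) p_RIC p_LC) p_DER

end R877.RN
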